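import Pool.Agent.Helper38.EC.Goals

/-! Packet KSM of MP_ecc237_nt, Part I: size of the Bessel functions near 0. -/

set_option autoImplicit false

open MeasureTheory Filter Topology Set Complex

namespace Pool.Agent.Helper13.EC.I_KSM

open EC237 EC237.PI

theorem pow_sub_pow_le (x y : ℂ) (M : ℝ) (hM : 1 ≤ M) (hx : ‖x‖ ≤ M) (hy : ‖y‖ ≤ M) (b : ℕ) :
    ‖x ^ b - y ^ b‖ ≤ b * M ^ b * ‖x - y‖ := by
  induction b with
  | zero => simp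
  | succ b ih =>
    have h1 : x ^ (b + 1) - y ^ (b + 1) = x * (x ^ b - y ^ b) + (x - y) * y ^ b := by ring
    have hMb : (1:ℝ) ≤ M ^ b := one_le_pow₀ hM
    have h2 : ‖y ^ b‖ ≤ M ^ b := by
      rw [norm_pow]
      exact pow_le_pow_left₀ (norm_nonneg _) hy b
    have h3 : ‖x * (x ^ b - y ^ b)‖ ≤ M * (b * M ^ b * ‖x - y‖) := by
      rw [norm_mul]
      exact mul_le_mul hx ih (norm_nonneg _) (by linarith)
    have h4 : ‖(x - y) * y ^ b‖ ≤ ‖x - y‖ * M ^ (b + 1) := by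
      rw [norm_mul]
      refine mul_le_mul_of_nonneg_left (h2.trans ?_) (norm_nonneg _)
      rw [pow_succ]
      nlinarith
    rw [h1]
    refine (norm_add_le _ _).trans ((add_le_add h3 h4).trans (le_of_eq ?_))
    push_cast
    ring

theorem ell_le {z : ℂ} (hz : z ≠ 0) (h1 : ‖z‖ ≤ 1) :
    ‖ell z‖ ≤ 30 * ‖z‖ ^ (-(1 / 24) : ℝ) := by
  have hr : 0 < ‖z‖ := norm_pos_iff.2 hz
  have hρ : (1:ℝ) ≤ ‖z‖ ^ (-(1 / 24) : ℝ) :=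
    Real.one_le_rpow_of_pos_of_le_one_of_nonpos hr h1 (by norm_num)
  have hlog : ‖Complex.log (z / 2)‖ ≤ |Real.log ‖z / 2‖| + |Complex.arg (z / 2)| := by
    refine (Complex.norm_le_abs_re_add_abs_im _).trans ?_
    rw [Complex.log_re, Complex.log_im]
  have harg : |Complex.arg (z / 2)| ≤ 4 :=
    (Complex.abs_arg_le_pi _).trans (by linarith [Real.pi_lt_four])
  have hn : ‖z / 2‖ = ‖z‖ / 2 := by
    rw [norm_div]; norm_num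
  have hl : |Real.log ‖z / 2‖| ≤ 1 + 24 * ‖z‖ ^ (-(1 / 24) : ℝ) := by
    rw [hn, Real.log_div hr.ne' (by norm_num)]
    have a1 : Real.log ‖z‖ ≤ 0 := Real.log_nonpos hr.le h1
    have a2 : 0 ≤ Real.log 2 := Real.log_nonneg (by norm_num)
    have a3 : Real.log 2 ≤ 1 := by linarith [Real.log_two_lt_d9]
    have a4 : Real.log (‖z‖⁻¹) ≤ (‖z‖⁻¹) ^ ((1 / 24 : ℝ)) / (1 / 24) :=
      Real.log_le_rpow_div (by positivity) (by norm_num)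
    have a5 : (‖z‖⁻¹) ^ ((1 / 24 : ℝ)) = ‖z‖ ^ (-(1 / 24) : ℝ) := by
      rw [Real.inv_rpow hr.le, ← Real.rpow_neg hr.le]
    rw [a5, Real.log_inv] at a4
    rw [abs_of_nonpos (by linarith)]
    have a6 : ‖z‖ ^ (-(1 / 24) : ℝ) / (1 / 24) = 24 * ‖z‖ ^ (-(1 / 24) : ℝ) := by ring
    linarith
  have hg : |Real.eulerMascheroniConstant| ≤ 1 := by
    have b1 := Real.one_half_lt_eulerMascheroniConstant
    have b2 := Real.eulerMascheroniConstant_lt_two_thirds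
    rw [abs_of_nonneg (by linarith)]
    linarith
  unfold ell
  refine (norm_sub_le _ _).trans ?_
  rw [norm_neg, Complex.norm_real, Real.norm_eq_abs]
  linarith

theorem thm (h : G_SERB) : G_KSM := by
  refine ⟨61 + 6 * 61 ^ 6 * 31 * 64 + 30 ^ 6 * 6 * 64, fun z hz h1 => ?_⟩
  have hz0 : z ≠ 0 := hz.2.2
  have hr : 0 < ‖z‖ := norm_pos_iff.2 hz0
  obtain ⟨hI, hS⟩ := h.1 z h1
  have hell := ell_le hz0 h1
  set ρ : ℝ := ‖z‖ ^ (-(1 / 24) : ℝ) with hρdef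
  have hρ : (1:ℝ) ≤ ρ := Real.one_le_rpow_of_pos_of_le_one_of_nonpos hr h1 (by norm_num)
  have hr2 : ‖z‖ ^ 2 ≤ 1 := pow_le_one₀ hr.le h1
  have hr20 : 0 ≤ ‖z‖ ^ 2 := by positivity
  have hIc : ‖Ic z‖ ≤ 2 := by
    have h3 := norm_add_le (Ic z - 1) 1
    rw [sub_add_cancel, norm_one] at h3
    linarith
  have hK : ‖Kc z‖ ≤ 61 * ρ := by
    unfold Kc
    refine (norm_add_le _ _).trans ?_
    rw [norm_mul]
    have h4 : ‖ell z‖ * ‖Ic z‖ ≤ (30 * ρ) * 2 :=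
      mul_le_mul hell hIc (norm_nonneg _) (by linarith)
    linarith
  have hd : ‖Kc z - ell z‖ ≤ 31 * ρ * ‖z‖ ^ 2 := by
    have h4 : Kc z - ell z = ell z * (Ic z - 1) + Sc z := by unfold Kc; ring
    rw [h4]
    refine (norm_add_le _ _).trans ?_
    rw [norm_mul]
    have h5 : ‖ell z‖ * ‖Ic z - 1‖ ≤ (30 * ρ) * ‖z‖ ^ 2 :=
      mul_le_mul hell hI (norm_nonneg _) (by linarith)
    nlinarith
  have hkey : ρ ^ 7 * ‖z‖ ^ 2 ≤ ‖z‖ ^ (1 / 2 : ℝ) := by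
    have h6 : ρ ^ 7 = ‖z‖ ^ (-(7 / 24) : ℝ) := by
      rw [hρdef, ← Real.rpow_natCast, ← Real.rpow_mul hr.le]
      norm_num
    have h7 : ‖z‖ ^ 2 = ‖z‖ ^ (2 : ℝ) := by norm_num
    rw [h6, h7, ← Real.rpow_add hr]
    exact Real.rpow_le_rpow_of_exponent_ge hr h1 (by norm_num)
  refine ⟨hIc, ?_, ?_, ?_⟩
  · refine hell.trans ?_
    refine mul_le_mul_of_nonneg_right (by norm_num) (by linarith)
  · refine hK.trans ?_
    refine mul_le_mul_of_nonneg_right (by norm_num) (by linarith)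
  intro b hb
  have e1 : Kc z ^ b * Ic z ^ (6 - b) - ell z ^ b =
      (Kc z ^ b - ell z ^ b) * Ic z ^ (6 - b) + ell z ^ b * (Ic z ^ (6 - b) - 1 ^ (6 - b)) := by
    rw [one_pow]; ring
  have hM : (1:ℝ) ≤ 61 * ρ := by linarith
  have hb6 : (b:ℝ) ≤ 6 := by exact_mod_cast hb
  have e2 : ‖Kc z ^ b - ell z ^ b‖ ≤ 6 * (61 ^ 6 * ρ ^ 6) * (31 * ρ * ‖z‖ ^ 2) := by
    refine (pow_sub_pow_le _ _ (61 * ρ) hM hK (hell.trans (by linarith)) b).trans ?_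
    refine mul_le_mul ?_ hd (norm_nonneg _) (by positivity)
    rw [← mul_pow]
    refine mul_le_mul hb6 (pow_le_pow_right₀ hM hb) (by positivity) (by norm_num)
  have e3 : ‖Ic z ^ (6 - b)‖ ≤ 64 := by
    rw [norm_pow]
    calc ‖Ic z‖ ^ (6 - b) ≤ 2 ^ (6 - b) := pow_le_pow_left₀ (norm_nonneg _) hIc _
      _ ≤ 2 ^ 6 := pow_le_pow_right₀ (by norm_num) (by omega)
      _ = 64 := by norm_num
  have e4 : ‖ell z ^ b‖ ≤ 30 ^ 6 * ρ ^ 6 := by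
    rw [norm_pow, ← mul_pow]
    calc ‖ell z‖ ^ b ≤ (30 * ρ) ^ b := pow_le_pow_left₀ (norm_nonneg _) hell _
      _ ≤ (30 * ρ) ^ 6 := pow_le_pow_right₀ (by linarith) hb
  have e5 : ‖Ic z ^ (6 - b) - 1 ^ (6 - b)‖ ≤ 6 * 64 * ‖z‖ ^ 2 := by
    refine (pow_sub_pow_le _ _ 2 (by norm_num) hIc (by rw [norm_one]; norm_num) (6 - b)).trans ?_
    refine mul_le_mul ?_ hI (norm_nonneg _) (by norm_num)
    have h8 : ((6 - b : ℕ) : ℝ) ≤ 6 := by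
      have : 6 - b ≤ 6 := by omega
      exact_mod_cast this
    have h9 : (2:ℝ) ^ (6 - b) ≤ 64 := by
      calc (2:ℝ) ^ (6 - b) ≤ 2 ^ 6 := pow_le_pow_right₀ (by norm_num) (by omega)
        _ = 64 := by norm_num
    exact mul_le_mul h8 h9 (by positivity) (by norm_num)
  rw [e1]
  refine (norm_add_le _ _).trans ?_
  rw [norm_mul, norm_mul]
  have e6 : ‖Kc z ^ b - ell z ^ b‖ * ‖Ic z ^ (6 - b)‖ ≤
      6 * (61 ^ 6 * ρ ^ 6) * (31 * ρ * ‖z‖ ^ 2) * 64 :=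
    mul_le_mul e2 e3 (norm_nonneg _) (by positivity)
  have e7 : ‖ell z ^ b‖ * ‖Ic z ^ (6 - b) - 1 ^ (6 - b)‖ ≤
      30 ^ 6 * ρ ^ 6 * (6 * 64 * ‖z‖ ^ 2) :=
    mul_le_mul e4 e5 (norm_nonneg _) (by positivity)
  have e8 : ρ ^ 6 * ‖z‖ ^ 2 ≤ ρ ^ 7 * ‖z‖ ^ 2 :=
    mul_le_mul_of_nonneg_right (pow_le_pow_right₀ hρ (by norm_num)) hr20
  have e9 : 0 ≤ ‖z‖ ^ (1 / 2 : ℝ) := Real.rpow_nonneg hr.le _
  calc ‖Kc z ^ b - ell z ^ b‖ * ‖Ic z ^ (6 - b)‖ + ‖ell z ^ b‖ * ‖Ic z ^ (6 - b) - 1 ^ (6 - b)‖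
      ≤ 6 * (61 ^ 6 * ρ ^ 6) * (31 * ρ * ‖z‖ ^ 2) * 64 + 30 ^ 6 * ρ ^ 6 * (6 * 64 * ‖z‖ ^ 2) :=
        add_le_add e6 e7
    _ = 6 * 61 ^ 6 * 31 * 64 * (ρ ^ 7 * ‖z‖ ^ 2) + 30 ^ 6 * 6 * 64 * (ρ ^ 6 * ‖z‖ ^ 2) := by ring
    _ ≤ 6 * 61 ^ 6 * 31 * 64 * ‖z‖ ^ (1 / 2 : ℝ) + 30 ^ 6 * 6 * 64 * ‖z‖ ^ (1 / 2 : ℝ) := by
        refine add_le_add (mul_le_mul_of_nonneg_left hkey (by norm_num))
          (mul_le_mul_of_nonneg_left (e8.trans hkey) (by norm_num))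
    _ ≤ (61 + 6 * 61 ^ 6 * 31 * 64 + 30 ^ 6 * 6 * 64) * ‖z‖ ^ (1 / 2 : ℝ) := by
        nlinarith

end Pool.Agent.Helper13.EC.I_KSM
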